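import Pool.Agent.Work.MP_ebafbb_an.Final

/-!
# `F(c₀)` is not isomorphic to Pelczynski's universal basis space `P`

The Lipschitz-free space over `c₀` enters through its universal property, exactly as in the
frozen statements of the problem.  (In `Pool.Agent.Work.MP_ebafbb_an.Final` it is also proved that
the closed linear span of the evaluations in `Lip₀(c₀)*` has this property.)
`IsPelczynskiSpace P` says that `P` has a Schauder basis `u` such that every Schauder basis of
every Banach space is equivalent to a subsequence of `u` whose closed span is complemented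
(see `Pool.Agent.Work.MP_ebafbb_an.PelczynskiDef`).

The proof shows that `ℓ_{4/3}` is not isomorphic to a complemented subspace of `F(c₀)`.
-/

set_option autoImplicit false

open Pool.Agent.Work.MP_ebafbb_an

namespace Pool.Agent.Results.MP_ebafbb_an.FreeC0NotPelczynski

/-- The Lipschitz-free space over `c₀` is not linearly isomorphic to Pelczynski's space. -/
theorem result
    (E : Type*) [NormedAddCommGroup E] [NormedSpace ℝ E] [CompleteSpace E]
    (δ : ZeroAtInftyContinuousMap ℕ ℝ → E) (h0 : δ 0 = 0) (hlip : LipschitzWith 1 δ)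
    (hdense : Dense ((Submodule.span ℝ (Set.range δ) : Submodule ℝ E) : Set E))
    (hext : ∀ (K : NNReal) (f : ZeroAtInftyContinuousMap ℕ ℝ → ℝ), LipschitzWith K f → f 0 = 0 →
      ∃ φ : E →L[ℝ] ℝ, ‖φ‖ ≤ (K : ℝ) ∧ ∀ x, φ (δ x) = f x)
    (P : Type*) [NormedAddCommGroup P] [NormedSpace ℝ P] [CompleteSpace P]
    (hP : IsPelczynskiSpace P) :
    ¬ Nonempty (E ≃L[ℝ] P) :=
  not_iso_of_isFree ⟨h0, hlip, hdense, hext⟩ hP

end Pool.Agent.Results.MP_ebafbb_an.FreeC0NotPelczynski
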